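import Mathlib
import Pool.Agent.Lib.MP_ee4062_co.Crossing

set_option autoImplicit false

namespace Pool.Agent.Results.MP_ee4062_co.CoHolesNotEnough

open Complex Set Pool.Agent.Lib.MP_ee4062_co

/-- Positions `i` and `j` of a cyclic list of length `k` are cyclically adjacent. -/
def CycAdj {k : ℕ} (i j : Fin k) : Prop := finRotate k i = j ∨ finRotate k j = i

/-- `f 0, f 1, …, f (k-1)` are distinct and occur in this cyclic order in the cyclically ordered
set `0, 1, …, n-1`: some rotation of the list is strictly increasing. -/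
def InCyclicOrder {k n : ℕ} (f : Fin k → Fin n) : Prop :=
  ∃ r : ℕ, StrictMono fun i => f ((finRotate k ^ r) i)

/-- The ordered graph `G`, with vertex set `0, 1, …, n-1` in this cyclic order, contains a co-hole
of length `k`. -/
def ContainsCoHole {n : ℕ} (G : SimpleGraph (Fin n)) (k : ℕ) : Prop :=
  ∃ f : Fin k → Fin n, InCyclicOrder f ∧
    ∀ i j, i ≠ j → (G.Adj (f i) (f j) ↔ ¬ CycAdj i j)

/-- The curves `γ v : [0, 1] → ℂ` form an outer-string representation of `G` in the closed unit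
disk: each is continuous, does not cross itself, stays in the disk and meets the unit circle
exactly at its endpoint `γ v 0`, its anchor; and two of them meet iff their vertices are
adjacent. -/
structure IsOuterStringRep {n : ℕ} (G : SimpleGraph (Fin n)) (γ : Fin n → unitInterval → ℂ) :
    Prop where
  continuous : ∀ v, Continuous (γ v)
  injective : ∀ v, Function.Injective (γ v)
  norm_le : ∀ v t, ‖γ v t‖ ≤ 1
  norm_eq : ∀ v t, ‖γ v t‖ = 1 ↔ t = 0
  meet_iff : ∀ u v, u ≠ v → ((range (γ u) ∩ range (γ v)).Nonempty ↔ G.Adj u v)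

/-- The anchors `γ 0 0, γ 1 0, …, γ (n-1) 0` are distinct and occur in this cyclic order on the unit
circle, counterclockwise or clockwise. -/
def AnchorsInOrder {n : ℕ} (γ : Fin n → unitInterval → ℂ) : Prop :=
  ∃ θ : Fin n → ℝ, StrictMono θ ∧ (∀ u v, θ v < θ u + 2 * Real.pi) ∧
    ((∀ v, γ v 0 = exp ((θ v : ℂ) * I)) ∨ (∀ v, γ v 0 = exp (-((θ v : ℂ) * I))))

/-- The ordered graph `G` (cyclic order `0, 1, …, n-1`) admits a constrained outer-string
representation. -/
def AdmitsConstrainedRep {n : ℕ} (G : SimpleGraph (Fin n)) : Prop :=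
  ∃ γ : Fin n → unitInterval → ℂ, IsOuterStringRep G γ ∧ AnchorsInOrder γ

/-- The adjacency test of the example. -/
def adjB (a b : Fin 8) : Bool :=
  (a.val, b.val) ∈ [(0, 1), (0, 4), (0, 6), (0, 7), (1, 3), (1, 5), (2, 3), (2, 4), (2, 5), (2, 7),
    (3, 6)]

/-- The example: edges `01 04 06 07 13 15 23 24 25 27 36`. -/
def G8 : SimpleGraph (Fin 8) where
  Adj a b := adjB a b = true ∨ adjB b a = true
  symm := ⟨fun _ _ h => h.symm⟩
  loopless := ⟨by decide⟩

instance : DecidableRel G8.Adj := fun a b => by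
  unfold G8
  infer_instance

theorem no_four : ∀ a b : Fin 8, a < b → ¬ G8.Adj a b → ∀ c, b < c → ¬ G8.Adj b c → G8.Adj a c →
    ∀ d, c < d → ¬ G8.Adj c d → G8.Adj b d → G8.Adj a d := by
  decide

theorem no_five : ∀ a b : Fin 8, a < b → ¬ G8.Adj a b → ∀ c, b < c → ¬ G8.Adj b c → G8.Adj a c →
    ∀ d, c < d → ¬ G8.Adj c d → G8.Adj b d → G8.Adj a d →
    ∀ e, d < e → ¬ G8.Adj d e → G8.Adj c e → G8.Adj b e → False := by
  decide

theorem cycAdj_rotate {k : ℕ} (r : ℕ) (i j : Fin k) :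
    CycAdj ((finRotate k ^ r) i) ((finRotate k ^ r) j) ↔ CycAdj i j := by
  have hcomm : ∀ x, finRotate k ((finRotate k ^ r) x) = (finRotate k ^ r) (finRotate k x) := by
    intro x
    rw [← Equiv.Perm.mul_apply, ← Equiv.Perm.mul_apply, ← pow_succ', ← pow_succ]
  unfold CycAdj
  rw [hcomm, hcomm, EmbeddingLike.apply_eq_iff_eq, EmbeddingLike.apply_eq_iff_eq]

theorem cycAdj_iff {n : ℕ} (i j : Fin (n + 1)) :
    CycAdj i j ↔ ((i.val + 1) % (n + 1) = j.val ∨ (j.val + 1) % (n + 1) = i.val) := by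
  have h : ∀ x : Fin (n + 1), (finRotate (n + 1) x).val = (x.val + 1) % (n + 1) := by
    intro x
    rw [finRotate_apply, Fin.val_add_eq_ite]
    have hx := x.isLt
    rcases Nat.eq_zero_or_pos n with hn | hn
    · subst hn
      simp
    · have h1 : ((1 : Fin (n + 1)) : ℕ) = 1 := by
        rw [Fin.val_one']
        exact Nat.mod_eq_of_lt (by omega)
      rw [h1]
      split_ifs with h2
      · have : x.val + 1 = n + 1 := by omega
        rw [this]
        simp
      · rw [Nat.mod_eq_of_lt (by omega)]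
  unfold CycAdj
  rw [Fin.ext_iff, Fin.ext_iff, h, h]

theorem noCoHole (k : ℕ) (hk : 4 ≤ k) : ¬ ContainsCoHole G8 k := by
  rintro ⟨f, ⟨r, hr⟩, hf⟩
  set g : Fin k → Fin 8 := fun i => f ((finRotate k ^ r) i) with hg
  have hadj : ∀ i j, i ≠ j → (G8.Adj (g i) (g j) ↔ ¬ CycAdj i j) := by
    intro i j hij
    rw [← cycAdj_rotate r i j]
    exact hf _ _ (fun h => hij ((finRotate k ^ r).injective h))
  obtain ⟨m, rfl⟩ : ∃ m, k = m + 3 + 1 := ⟨k - 4, by omega⟩
  have hlt : ∀ a b (ha : a < m + 3 + 1) (hb : b < m + 3 + 1), a < b → g ⟨a, ha⟩ < g ⟨b, hb⟩ :=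
    fun a b ha hb hab => hr (Fin.mk_lt_mk.mpr hab)
  have hE : ∀ a b (ha : a < m + 3 + 1) (hb : b < m + 3 + 1), a < b → (a + 1 ≠ b) →
      (a ≠ 0 ∨ b + 1 ≠ m + 3 + 1) → G8.Adj (g ⟨a, ha⟩) (g ⟨b, hb⟩) := by
    intro a b ha hb hab h1 h2
    rw [hadj _ _ (by rw [Ne, Fin.ext_iff]; exact hab.ne), cycAdj_iff]
    simp only
    rw [Nat.mod_eq_of_lt (by omega : a + 1 < m + 3 + 1)]
    rintro (h | h)
    · exact h1 h
    · rcases Nat.lt_or_ge (b + 1) (m + 3 + 1) with h3 | h3
      · rw [Nat.mod_eq_of_lt h3] at h; omega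
      · have h4 : b + 1 = m + 3 + 1 := by omega
        rw [h4, Nat.mod_self] at h
        omega
  have hN : ∀ a b (ha : a < m + 3 + 1) (hb : b < m + 3 + 1), (a + 1 = b) →
      ¬ G8.Adj (g ⟨a, ha⟩) (g ⟨b, hb⟩) := by
    intro a b ha hb hab
    rw [hadj _ _ (by rw [Ne, Fin.ext_iff]; simp only; omega), cycAdj_iff]
    simp only
    rw [Nat.mod_eq_of_lt (by omega : a + 1 < m + 3 + 1), not_not]
    exact Or.inl hab
  rcases Nat.eq_zero_or_pos m with hm | hm
  · subst hm
    have h03 : ¬ G8.Adj (g ⟨0, by omega⟩) (g ⟨3, by omega⟩) := by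
      rw [hadj _ _ (by decide), cycAdj_iff, not_not]
      decide
    exact h03 (no_four _ _ (hlt 0 1 (by omega) (by omega) (by omega)) (hN 0 1 _ _ rfl) _
      (hlt 1 2 (by omega) (by omega) (by omega)) (hN 1 2 _ _ rfl)
      (hE 0 2 _ _ (by omega) (by omega) (by omega)) _
      (hlt 2 3 (by omega) (by omega) (by omega)) (hN 2 3 _ _ rfl)
      (hE 1 3 _ _ (by omega) (by omega) (by omega)))
  · exact no_five _ _ (hlt 0 1 (by omega) (by omega) (by omega)) (hN 0 1 _ _ rfl) _
      (hlt 1 2 (by omega) (by omega) (by omega)) (hN 1 2 _ _ rfl)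
      (hE 0 2 _ _ (by omega) (by omega) (by omega)) _
      (hlt 2 3 (by omega) (by omega) (by omega)) (hN 2 3 _ _ rfl)
      (hE 1 3 _ _ (by omega) (by omega) (by omega))
      (hE 0 3 _ _ (by omega) (by omega) (by omega)) _
      (hlt 3 4 (by omega) (by omega) (by omega)) (hN 3 4 _ _ rfl)
      (hE 2 4 _ _ (by omega) (by omega) (by omega))
      (hE 1 4 _ _ (by omega) (by omega) (by omega))

/-- The topological heart: no family of curves in the closed unit disk with anchors in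
counterclockwise order realises `G8`. -/
theorem noRep (γ : Fin 8 → unitInterval → ℂ) (hc : ∀ v, Continuous (γ v))
    (hn : ∀ v t, ‖γ v t‖ ≤ 1)
    (hm : ∀ u v, u ≠ v → ((range (γ u) ∩ range (γ v)).Nonempty ↔ G8.Adj u v))
    (θ : Fin 8 → ℝ) (hθ : StrictMono θ) (hθ2 : ∀ u v, θ v < θ u + 2 * Real.pi)
    (ha : ∀ v, γ v 0 = exp ((θ v : ℂ) * I)) : False := by
  set R : Fin 8 → Set ℂ := fun v => range (γ v) with hR
  have hmeet : ∀ u v, G8.Adj u v → (R u ∩ R v).Nonempty := fun u v h => (hm u v h.ne).mpr h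
  have hdis : ∀ u v, u ≠ v → ¬ G8.Adj u v → ∀ z, z ∈ R u → z ∈ R v → False :=
    fun u v h h' z h1 h2 => h' ((hm u v h).mp ⟨z, h1, h2⟩)
  have : PathConnectedSpace unitInterval :=
    isPathConnected_iff_pathConnectedSpace.mp
      ((convex_Icc (0 : ℝ) 1).isPathConnected ⟨0, by simp⟩)
  have hpc : ∀ v, IsPathConnected (R v) := fun v => isPathConnected_range (hc v)
  have hanch : ∀ v, exp ((θ v : ℂ) * I) ∈ R v := fun v => ⟨0, ha v⟩
  have hnorm : ∀ v, ∀ z ∈ R v, ‖z‖ ≤ 1 := by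
    rintro v z ⟨t, rfl⟩; exact hn v t
  have hcomp : ∀ v, IsCompact (R v) := fun v => isCompact_range (hc v)
  -- the curve of vertex 0, parametrised by the reals
  set g : ℝ → ℂ := fun s => γ 0 (projIcc 0 1 zero_le_one s) with hg
  have hgc : Continuous g := (hc 0).comp continuous_projIcc
  have hgR : ∀ s, g s ∈ R 0 := fun s => ⟨_, rfl⟩
  have hgsurj : ∀ z ∈ R 0, ∃ s ∈ Icc (0 : ℝ) 1, g s = z := by
    rintro z ⟨t, rfl⟩
    exact ⟨t, t.2, by simp [hg]⟩
  -- a shortest subarc of the curve of 0 joining the curves of 4 and 7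
  obtain ⟨s, t, hs, ht, hmin⟩ : ∃ s t : ℝ, g s ∈ R 4 ∧ g t ∈ R 7 ∧
      ∀ r, min s t < r → r < max s t → g r ∉ R 4 ∧ g r ∉ R 7 := by
    set K4 : Set ℝ := Icc 0 1 ∩ g ⁻¹' R 4 with hK4
    set K7 : Set ℝ := Icc 0 1 ∩ g ⁻¹' R 7 with hK7
    have hK4c : IsCompact K4 := isCompact_Icc.inter_right ((hcomp 4).isClosed.preimage hgc)
    have hK7c : IsCompact K7 := isCompact_Icc.inter_right ((hcomp 7).isClosed.preimage hgc)
    have hK4n : K4.Nonempty := by
      obtain ⟨z, hz0, hz4⟩ := hmeet 0 4 (by decide)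
      obtain ⟨s, hs, hsz⟩ := hgsurj z hz0
      exact ⟨s, hs, by rw [mem_preimage, hsz]; exact hz4⟩
    have hK7n : K7.Nonempty := by
      obtain ⟨z, hz0, hz7⟩ := hmeet 0 7 (by decide)
      obtain ⟨s, hs, hsz⟩ := hgsurj z hz0
      exact ⟨s, hs, by rw [mem_preimage, hsz]; exact hz7⟩
    obtain ⟨⟨s, t⟩, ⟨hs, ht⟩, hmin⟩ := (hK4c.prod hK7c).exists_isMinOn (hK4n.prod hK7n)
      (f := fun p : ℝ × ℝ => |p.1 - p.2|) (by fun_prop)
    refine ⟨s, t, hs.2, ht.2, ?_⟩
    intro r h1 h2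
    have hr01 : r ∈ Icc (0 : ℝ) 1 := by
      have a1 := hs.1.1
      have a2 := hs.1.2
      have a3 := ht.1.1
      have a4 := ht.1.2
      constructor
      · exact (le_min a1 a3).trans h1.le
      · exact h2.le.trans (max_le a2 a4)
    constructor
    · intro h4
      have h5 : |s - t| ≤ |r - t| := hmin (Set.mk_mem_prod ⟨hr01, h4⟩ ht)
      rcases le_total s t with h | h
      · rw [min_eq_left h] at h1
        rw [max_eq_right h] at h2
        rw [abs_of_nonpos (by linarith), abs_of_nonpos (by linarith)] at h5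
        linarith
      · rw [min_eq_right h] at h1
        rw [max_eq_left h] at h2
        rw [abs_of_nonneg (by linarith), abs_of_nonneg (by linarith)] at h5
        linarith
    · intro h7
      have h5 : |s - t| ≤ |s - r| := hmin (Set.mk_mem_prod hs ⟨hr01, h7⟩)
      rcases le_total s t with h | h
      · rw [min_eq_left h] at h1
        rw [max_eq_right h] at h2
        rw [abs_of_nonpos (by linarith), abs_of_nonpos (by linarith)] at h5
        linarith
      · rw [min_eq_right h] at h1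
        rw [max_eq_left h] at h2
        rw [abs_of_nonneg (by linarith), abs_of_nonneg (by linarith)] at h5
        linarith
  have hsmem : s ∈ Icc (min s t) (max s t) := ⟨min_le_left _ _, le_max_left _ _⟩
  have htmem : t ∈ Icc (min s t) (max s t) := ⟨min_le_right _ _, le_max_right _ _⟩
  -- the closed subarc and the connected set through 4, 0, 7
  set Q : Set ℂ := g '' Icc (min s t) (max s t) with hQ
  have hQpc : IsPathConnected Q :=
    ((convex_Icc _ _).isPathConnected ⟨s, hsmem⟩).image' hgc.continuousOn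
  have hApc : IsPathConnected ((R 4 ∪ Q) ∪ R 7) :=
    (((hpc 4).union hQpc ⟨g s, hs, mem_image_of_mem g hsmem⟩).union (hpc 7)
      ⟨g t, Or.inr (mem_image_of_mem g htmem), ht⟩)
  have hQ0 : ∀ z ∈ Q, z ∈ R 0 := by
    rintro z ⟨r, _, rfl⟩; exact hgR r
  have hAnorm : ∀ z ∈ (R 4 ∪ Q) ∪ R 7, ‖z‖ ≤ 1 := by
    rintro z ((h | h) | h)
    · exact hnorm 4 z h
    · exact hnorm 0 z (hQ0 z h)
    · exact hnorm 7 z h
  -- a point of `Q` off the curves of 4 and 7 lies in the open subarc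
  have hopen : ∀ z ∈ Q, z ∉ R 4 → z ∉ R 7 → z ∈ g '' Ioo (min s t) (max s t) := by
    rintro z ⟨r, hr, rfl⟩ h4 h7
    refine ⟨r, ⟨lt_of_le_of_ne hr.1 ?_, lt_of_le_of_ne hr.2 ?_⟩, rfl⟩
    · intro h
      rcases min_choice s t with h' | h'
      · rw [h'] at h; exact h4 (h ▸ hs)
      · rw [h'] at h; exact h7 (h ▸ ht)
    · intro h
      rcases max_choice s t with h' | h'
      · rw [h'] at h; exact h4 (h ▸ hs)
      · rw [h'] at h; exact h7 (h ▸ ht)
  have hlt : ∀ u v : Fin 8, u < v → θ u < θ v := fun u v h => hθ h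
  -- curve 1 meets the open subarc
  obtain ⟨z1, hz1R, hz1Q⟩ : ∃ z, z ∈ R 1 ∧ z ∈ g '' Ioo (min s t) (max s t) := by
    obtain ⟨z, hz1, hz2⟩ := crossing_sets ((hpc 1).union (hpc 5) (hmeet 1 5 (by decide))) hApc
      (by rintro z (h | h); exacts [hnorm 1 z h, hnorm 5 z h]) hAnorm
      (Or.inl (hanch 1)) (Or.inl (Or.inl (hanch 4))) (Or.inr (hanch 5)) (Or.inr (hanch 7))
      (hlt _ _ (by decide)) (hlt _ _ (by decide)) (hlt _ _ (by decide)) (hθ2 _ _)
    have h5 : z ∉ R 5 := by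
      intro h5
      rcases hz2 with (h | h) | h
      · exact hdis 4 5 (by decide) (by decide) z h h5
      · exact hdis 0 5 (by decide) (by decide) z (hQ0 z h) h5
      · exact hdis 7 5 (by decide) (by decide) z h h5
    have h1 : z ∈ R 1 := hz1.resolve_right h5
    have h4 : z ∉ R 4 := fun h => hdis 4 1 (by decide) (by decide) z h h1
    have h7 : z ∉ R 7 := fun h => hdis 7 1 (by decide) (by decide) z h h1
    exact ⟨z, h1, hopen z ((hz2.resolve_right h7).resolve_left h4) h4 h7⟩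
  -- curve 6 meets the open subarc
  obtain ⟨z6, hz6R, hz6Q⟩ : ∃ z, z ∈ R 6 ∧ z ∈ g '' Ioo (min s t) (max s t) := by
    obtain ⟨z, hz1, hz2⟩ := crossing_sets ((hpc 3).union (hpc 6) (hmeet 3 6 (by decide))) hApc
      (by rintro z (h | h); exacts [hnorm 3 z h, hnorm 6 z h]) hAnorm
      (Or.inl (hanch 3)) (Or.inl (Or.inl (hanch 4))) (Or.inr (hanch 6)) (Or.inr (hanch 7))
      (hlt _ _ (by decide)) (hlt _ _ (by decide)) (hlt _ _ (by decide)) (hθ2 _ _)
    have h3 : z ∉ R 3 := by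
      intro h3
      rcases hz2 with (h | h) | h
      · exact hdis 4 3 (by decide) (by decide) z h h3
      · exact hdis 0 3 (by decide) (by decide) z (hQ0 z h) h3
      · exact hdis 7 3 (by decide) (by decide) z h h3
    have h6 : z ∈ R 6 := hz1.resolve_left h3
    have h4 : z ∉ R 4 := fun h => hdis 4 6 (by decide) (by decide) z h h6
    have h7 : z ∉ R 7 := fun h => hdis 7 6 (by decide) (by decide) z h h6
    exact ⟨z, h6, hopen z ((hz2.resolve_right h7).resolve_left h4) h4 h7⟩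
  -- the connected set through 1, the open subarc, 6
  set P : Set ℂ := g '' Ioo (min s t) (max s t) with hP
  have hPpc : IsPathConnected P := by
    obtain ⟨r, hr, _⟩ := hz1Q
    exact ((convex_Ioo _ _).isPathConnected ⟨r, hr⟩).image' hgc.continuousOn
  have hCpc : IsPathConnected ((R 1 ∪ P) ∪ R 6) :=
    ((hpc 1).union hPpc ⟨z1, hz1R, hz1Q⟩).union (hpc 6) ⟨z6, Or.inr hz6Q, hz6R⟩
  have hP0 : ∀ z ∈ P, z ∈ R 0 := by
    rintro z ⟨r, _, rfl⟩; exact hgR r
  have hBpc : IsPathConnected ((R 4 ∪ R 2) ∪ R 7) :=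
    ((hpc 4).union (hpc 2) (hmeet 4 2 (by decide))).union (hpc 7) (by
      obtain ⟨z, h2, h7⟩ := hmeet 2 7 (by decide)
      exact ⟨z, Or.inr h2, h7⟩)
  obtain ⟨z, hz1, hz2⟩ := crossing_sets hCpc hBpc
    (by
      rintro z ((h | h) | h)
      exacts [hnorm 1 z h, hnorm 0 z (hP0 z h), hnorm 6 z h])
    (by
      rintro z ((h | h) | h)
      exacts [hnorm 4 z h, hnorm 2 z h, hnorm 7 z h])
    (Or.inl (Or.inl (hanch 1))) (Or.inl (Or.inl (hanch 4))) (Or.inr (hanch 6)) (Or.inr (hanch 7))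
    (hlt _ _ (by decide)) (hlt _ _ (by decide)) (hlt _ _ (by decide)) (hθ2 _ _)
  rcases hz1 with (h1 | hp) | h6
  · rcases hz2 with (h | h) | h
    · exact hdis 1 4 (by decide) (by decide) z h1 h
    · exact hdis 1 2 (by decide) (by decide) z h1 h
    · exact hdis 1 7 (by decide) (by decide) z h1 h
  · rcases hz2 with (h | h) | h
    · obtain ⟨r, hr, rfl⟩ := hp
      exact (hmin r hr.1 hr.2).1 h
    · exact hdis 0 2 (by decide) (by decide) z (hP0 z hp) h
    · obtain ⟨r, hr, rfl⟩ := hp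
      exact (hmin r hr.1 hr.2).2 h
  · rcases hz2 with (h | h) | h
    · exact hdis 6 4 (by decide) (by decide) z h6 h
    · exact hdis 6 2 (by decide) (by decide) z h6 h
    · exact hdis 6 7 (by decide) (by decide) z h6 h

/-- There is an ordered graph on eight vertices that contains no co-hole of length at least four and
has no constrained outer-string representation. -/
theorem result : ∃ G : SimpleGraph (Fin 8),
    (∀ k, 4 ≤ k → ¬ ContainsCoHole G k) ∧ ¬ AdmitsConstrainedRep G := by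
  refine ⟨G8, noCoHole, ?_⟩
  rintro ⟨γ, hγ, θ, hθ, hθ2, h | h⟩
  · exact noRep γ hγ.continuous hγ.norm_le hγ.meet_iff θ hθ hθ2 h
  · refine noRep (fun v t => (starRingEnd ℂ) (γ v t))
      (fun v => Complex.continuous_conj.comp (hγ.continuous v)) ?_ ?_ θ hθ hθ2 ?_
    · intro v t
      simpa using hγ.norm_le v t
    · intro u v huv
      rw [← hγ.meet_iff u v huv]
      constructor
      · rintro ⟨z, ⟨s, hs⟩, ⟨t, ht⟩⟩
        refine ⟨(starRingEnd ℂ) z, ⟨s, ?_⟩, ⟨t, ?_⟩⟩
        · rw [← hs]; simp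
        · rw [← ht]; simp
      · rintro ⟨z, ⟨s, hs⟩, ⟨t, ht⟩⟩
        refine ⟨(starRingEnd ℂ) z, ⟨s, ?_⟩, ⟨t, ?_⟩⟩
        · simp only; rw [hs]
        · simp only; rw [ht]
    · intro v
      rw [h v, ← exp_conj]
      congr 1
      simp

end Pool.Agent.Results.MP_ee4062_co.CoHolesNotEnough
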